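import Mathlib

/-!
# Extension of specializations

`R → K` extends to a local subring of `L` which contains all the elements of `L` integral over `R[1/Δ]`.
-/

set_option autoImplicit false

namespace Pool.Agent.X200.Del

open Polynomial

universe u v w

theorem ext_int {A : Type u} {C : Type v} {K : Type w} [CommRing A] [CommRing C] [Algebra A C]
    [Algebra.IsIntegral A C] (hAC : Function.Injective (algebraMap A C)) [IsDomain C]
    [Field K] [IsAlgClosed K] (φ : A →+* K) :
    ∃ ψ : C →+* K, ∀ a, ψ (algebraMap A C a) = φ a := by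
  haveI : (RingHom.ker φ).IsPrime := RingHom.ker_isPrime φ
  obtain ⟨q, hq, hqp⟩ := Ideal.exists_ideal_over_prime_of_isIntegral_of_isDomain (S := C)
    (RingHom.ker φ) (by rw [(RingHom.injective_iff_ker_eq_bot _).1 hAC]; exact bot_le)
  letI : Algebra (A ⧸ RingHom.ker φ) (C ⧸ q) :=
    Ideal.Quotient.algebraQuotientOfLEComap hqp.ge
  letI : Algebra (A ⧸ RingHom.ker φ) K := (RingHom.kerLift φ).toAlgebra
  have h1 : Function.Injective (algebraMap (A ⧸ RingHom.ker φ) K) := RingHom.kerLift_injective φ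
  have hal : ∀ a : A, algebraMap (A ⧸ RingHom.ker φ) (C ⧸ q) (Ideal.Quotient.mk _ a) =
      Ideal.Quotient.mk q (algebraMap A C a) := fun a => rfl
  have h2 : Function.Injective (algebraMap (A ⧸ RingHom.ker φ) (C ⧸ q)) := by
    rw [injective_iff_map_eq_zero]
    intro x hx
    obtain ⟨a, rfl⟩ := Ideal.Quotient.mk_surjective x
    rw [hal, Ideal.Quotient.eq_zero_iff_mem] at hx
    rw [Ideal.Quotient.eq_zero_iff_mem, ← hqp]
    exact hx
  haveI : FaithfulSMul (A ⧸ RingHom.ker φ) (C ⧸ q) := (faithfulSMul_iff_algebraMap_injective _ _).2 h2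
  haveI : FaithfulSMul (A ⧸ RingHom.ker φ) K := (faithfulSMul_iff_algebraMap_injective _ _).2 h1
  haveI : Algebra.IsIntegral (A ⧸ RingHom.ker φ) (C ⧸ q) := by
    constructor
    intro x
    obtain ⟨c, rfl⟩ := Ideal.Quotient.mk_surjective x
    obtain ⟨P, hP, hP2⟩ := Algebra.IsIntegral.isIntegral (R := A) c
    refine ⟨P.map (Ideal.Quotient.mk _), hP.map _, ?_⟩
    rw [eval₂_map]
    have : (algebraMap (A ⧸ RingHom.ker φ) (C ⧸ q)).comp (Ideal.Quotient.mk (RingHom.ker φ)) =
        (Ideal.Quotient.mk q).comp (algebraMap A C) := by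
      ext a; rfl
    rw [this, ← hom_eval₂, hP2, map_zero]
  haveI : IsDomain (A ⧸ RingHom.ker φ) := Ideal.Quotient.isDomain _
  haveI : IsDomain (C ⧸ q) := Ideal.Quotient.isDomain _
  haveI : Module.IsTorsionFree (A ⧸ RingHom.ker φ) (C ⧸ q) :=
    Module.IsTorsionFree.trans_faithfulSMul _ (C ⧸ q) (C ⧸ q)
  haveI : Module.IsTorsionFree (A ⧸ RingHom.ker φ) K :=
    Module.IsTorsionFree.trans_faithfulSMul _ K K
  haveI : Algebra.IsAlgebraic (A ⧸ RingHom.ker φ) (C ⧸ q) := Algebra.IsIntegral.isAlgebraic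
  let f : C ⧸ q →ₐ[A ⧸ RingHom.ker φ] K := IsAlgClosed.lift
  refine ⟨f.toRingHom.comp (Ideal.Quotient.mk q), fun a => ?_⟩
  have h3 := f.commutes (Ideal.Quotient.mk _ a)
  rw [hal] at h3
  exact h3

/-- extension of a specialization `φ` of a domain `R` with `φ Δ ≠ 0`: `B` is a local ring between `R` and the field
`L`, which contains all elements integral over `R[1/Δ]` -/
theorem ext_hom {R : Type u} {L : Type v} {K : Type w} [CommRing R] [Field L] [Field K]
    [IsAlgClosed K] (ι : R →+* L) (hι : Function.Injective ι) (φ : R →+* K) (Δ : R)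
    (hΔ : φ Δ ≠ 0) :
    ∃ (B : Type v) (_ : CommRing B) (j : B →+* L) (ψ : B →+* K) (e : R →+* B),
      Function.Injective j ∧ (∀ r, j (e r) = ι r) ∧ (∀ r, ψ (e r) = φ r) ∧
      (∀ b, ψ b ≠ 0 → IsUnit b) ∧
      ∀ x : L, (∃ P : R[X], P.leadingCoeff ∣ Δ ∧ P.eval₂ ι x = 0) → ∃ b, j b = x := by
  have hΔ0 : Δ ≠ 0 := fun h => hΔ (by rw [h, map_zero])
  have hιΔ : ι Δ ≠ 0 := fun h => hΔ0 (hι (by rw [h, map_zero]))
  haveI : IsDomain R := hι.isDomain ι
  let A := Localization.Away Δ
  let ιA : A →+* L := IsLocalization.Away.lift Δ (S := A) (isUnit_iff_ne_zero.2 hιΔ)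
  let φA : A →+* K := IsLocalization.Away.lift Δ (S := A) (isUnit_iff_ne_zero.2 hΔ)
  have hιA : ∀ r, ιA (algebraMap R A r) = ι r := fun r => IsLocalization.Away.lift_eq _ _ _
  have hφA : ∀ r, φA (algebraMap R A r) = φ r := fun r => IsLocalization.Away.lift_eq _ _ _
  have hinjA : Function.Injective ιA := by
    rw [injective_iff_map_eq_zero]
    intro a ha
    obtain ⟨⟨r, s⟩, hrs⟩ := IsLocalization.surj (Submonoid.powers Δ) a
    have h1 : ιA (a * algebraMap R A s) = ιA (algebraMap R A r) := by rw [hrs]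
    rw [map_mul, ha, zero_mul, hιA] at h1
    have h2 : r = 0 := hι (by rw [← h1, map_zero])
    subst h2
    rw [map_zero] at hrs
    exact ((IsLocalization.map_units A s).mul_left_eq_zero).1 hrs
  haveI : Nontrivial A := ⟨⟨0, 1, fun h => by
    have h2 := congrArg ιA h
    rw [map_one, map_zero] at h2
    exact zero_ne_one h2⟩⟩
  letI : Algebra A L := ιA.toAlgebra
  let Cc := integralClosure A L
  have hAC : Function.Injective (algebraMap A Cc) := by
    intro a b hab
    apply hinjA
    exact congrArg Subtype.val hab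
  obtain ⟨ψC, hψC⟩ := ext_int hAC φA
  let q' : Ideal Cc := RingHom.ker ψC
  haveI : q'.IsPrime := RingHom.ker_isPrime ψC
  let B := Localization.AtPrime q'
  have hj : ∀ y : q'.primeCompl, IsUnit ((Cc.val : Cc →+* L) y) := by
    intro y
    rw [isUnit_iff_ne_zero]
    intro h
    apply y.2
    have : (y : Cc) = 0 := Subtype.ext h
    rw [this]
    exact q'.zero_mem
  have hps : ∀ y : q'.primeCompl, IsUnit (ψC y) := by
    intro y
    rw [isUnit_iff_ne_zero]
    exact y.2
  let j : B →+* L := IsLocalization.lift (M := q'.primeCompl) hj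
  let ψ : B →+* K := IsLocalization.lift (M := q'.primeCompl) hps
  have hjC : ∀ c : Cc, j (algebraMap Cc B c) = (c : L) := fun c => IsLocalization.lift_eq _ _
  have hψB : ∀ c : Cc, ψ (algebraMap Cc B c) = ψC c := fun c => IsLocalization.lift_eq _ _
  refine ⟨B, inferInstance, j, ψ, (algebraMap Cc B).comp ((algebraMap A Cc).comp (algebraMap R A)),
    ?_, ?_, ?_, ?_, ?_⟩
  · rw [injective_iff_map_eq_zero]
    intro a ha
    obtain ⟨⟨r, s⟩, hrs⟩ := IsLocalization.surj q'.primeCompl a
    have h1 : j (a * algebraMap Cc B s) = j (algebraMap Cc B r) := by rw [hrs]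
    rw [map_mul, ha, zero_mul, hjC] at h1
    have h2 : r = 0 := Subtype.ext h1.symm
    subst h2
    rw [map_zero] at hrs
    exact ((IsLocalization.map_units B s).mul_left_eq_zero).1 hrs
  · intro r
    rw [RingHom.comp_apply, hjC, RingHom.comp_apply]
    exact hιA r
  · intro r
    rw [RingHom.comp_apply, hψB, RingHom.comp_apply, hψC]
    exact hφA r
  · intro b hb
    obtain ⟨⟨r, s⟩, hrs⟩ := IsLocalization.surj q'.primeCompl b
    have h1 : ψ (b * algebraMap Cc B s) = ψ (algebraMap Cc B r) := by rw [hrs]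
    rw [map_mul, hψB, hψB] at h1
    have h2 : r ∈ q'.primeCompl := by
      intro h
      have h3 : ψC r = 0 := h
      rw [h3] at h1
      exact (mul_ne_zero hb (isUnit_iff_ne_zero.1 (hps s))) h1
    have h4 : IsUnit (algebraMap Cc B r) := IsLocalization.map_units B ⟨r, h2⟩
    rw [← hrs] at h4
    exact isUnit_of_mul_isUnit_left h4
  · rintro x ⟨P, ⟨c, hc⟩, hP⟩
    have hx : IsIntegral A x := by
      have hunit : IsUnit (algebraMap R A P.leadingCoeff) := by
        have h5 : IsUnit (algebraMap R A Δ) := IsLocalization.Away.algebraMap_isUnit Δ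
        have h6 : algebraMap R A Δ = algebraMap R A P.leadingCoeff * algebraMap R A c := by
          rw [← map_mul, ← hc]
        rw [h6] at h5
        exact isUnit_of_mul_isUnit_left h5
      obtain ⟨w, hw⟩ := hunit.exists_left_inv
      have hmap : (P.map (algebraMap R A)).eval₂ (algebraMap A L) x = 0 := by
        rw [eval₂_map]
        have : (algebraMap A L).comp (algebraMap R A) = ι := by
          ext r; exact hιA r
        rw [this, hP]
      have hlc : (P.map (algebraMap R A)).leadingCoeff = algebraMap R A P.leadingCoeff :=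
        leadingCoeff_map_of_leadingCoeff_ne_zero _ hunit.ne_zero
      refine ⟨C w * P.map (algebraMap R A), ?_, ?_⟩
      · have hw0 : w * (P.map (algebraMap R A)).leadingCoeff ≠ 0 := by
          rw [hlc, hw]
          exact one_ne_zero
        rw [Monic, leadingCoeff_mul' (by rwa [leadingCoeff_C]), leadingCoeff_C, hlc, hw]
      · rw [eval₂_mul, hmap, mul_zero]
    exact ⟨algebraMap Cc B ⟨x, hx⟩, hjC _⟩

end Pool.Agent.X200.Del
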