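import Mathlib
import Pool.Agent.X328.GN.Stm2

/-!
# A map with the normal form given by `t`, with finite fixed points `0`, `1`, `1 - μ`
-/

set_option autoImplicit false

namespace Pool.Agent.X200.Del

open Polynomial Finset
open Pool.Agent.X328.GN (Ix nu de hm u0 w0 kap ofc)

noncomputable section

section hm

variable {A : Type*} [CommRing A]

theorem hm_C_mul (d : ℕ) (c : A) (F P Q : A[X]) : hm d (C c * F) P Q = C c * hm d F P Q := by
  unfold hm
  rw [mul_sum]
  refine sum_congr rfl fun i _ => ?_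
  rw [coeff_C_mul, C_mul]
  ring

theorem hm_sub (d : ℕ) (F G P Q : A[X]) : hm d (F - G) P Q = hm d F P Q - hm d G P Q := by
  unfold hm
  rw [← sum_sub_distrib]
  refine sum_congr rfl fun i _ => ?_
  rw [coeff_sub, C_sub]
  ring

theorem map_hm {B : Type*} [CommRing B] (f : A →+* B) (d : ℕ) (F P Q : A[X]) :
    (hm d F P Q).map f = hm d (F.map f) (P.map f) (Q.map f) := by
  unfold hm
  rw [Polynomial.map_sum]
  refine sum_congr rfl fun i _ => ?_
  simp

theorem eval_hm (d : ℕ) (F P Q : A[X]) (s : A) :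
    (hm d F P Q).eval s = ∑ i ∈ range (d + 1), F.coeff i * P.eval s ^ i * Q.eval s ^ (d - i) := by
  unfold hm
  rw [eval_finsetSum]
  refine sum_congr rfl fun i _ => ?_
  simp

theorem eval_hm_zero (d : ℕ) (F P Q : A[X]) (s : A) (h : Q.eval s = 0) :
    (hm d F P Q).eval s = F.coeff d * P.eval s ^ d := by
  rw [eval_hm, sum_range_succ, sum_eq_zero, zero_add, Nat.sub_self, pow_zero, mul_one]
  intro i hi
  have : d - i ≠ 0 := by have := Finset.mem_range.1 hi; omega
  rw [h, zero_pow this, mul_zero]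

theorem natDegree_hm (d : ℕ) (F P Q : A[X]) (hP : P.natDegree ≤ 1) (hQ : Q.natDegree ≤ 1) :
    (hm d F P Q).natDegree ≤ d := by
  unfold hm
  refine natDegree_sum_le_of_forall_le _ _ fun i hi => ?_
  have hi' := Finset.mem_range.1 hi
  refine natDegree_mul_le_of_le (m := i) (n := d - i) ?_ ?_ |>.trans (by omega)
  · refine (natDegree_C_mul_le _ _).trans ?_
    exact (natDegree_pow_le_of_le i hP).trans (by omega)
  · exact (natDegree_pow_le_of_le (d - i) hQ).trans (by omega)

theorem coeff_hm (d : ℕ) (F P Q : A[X]) (hP : P.natDegree ≤ 1) (hQ : Q.natDegree ≤ 1)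
    (h1 : Q.coeff 1 = 1) :
    (hm d F P Q).coeff d = ∑ i ∈ range (d + 1), F.coeff i * P.coeff 1 ^ i := by
  unfold hm
  rw [finsetSum_coeff]
  refine sum_congr rfl fun i hi => ?_
  have hi' := Finset.mem_range.1 hi
  have e1 : (P ^ i).coeff i = P.coeff 1 ^ i := by
    have := coeff_pow_of_natDegree_le (m := i) hP
    rwa [mul_one] at this
  have e2 : (Q ^ (d - i)).coeff (d - i) = 1 := by
    have := coeff_pow_of_natDegree_le (m := d - i) hQ
    rwa [mul_one, h1, one_pow] at this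
  have e3 : (P ^ i * Q ^ (d - i)).coeff (i + (d - i)) = P.coeff 1 ^ i := by
    rw [coeff_mul_add_eq_of_natDegree_le, e1, e2, mul_one]
    · exact (natDegree_pow_le_of_le i hP).trans (by omega)
    · exact (natDegree_pow_le_of_le (d - i) hQ).trans (by omega)
  rw [mul_assoc, coeff_C_mul]
  have e4 : i + (d - i) = d := by omega
  rw [e4] at e3
  rw [e3]

end hm

section nude

variable {A : Type*} [CommRing A] {d : ℕ} (t : Ix d → A)

theorem nu_coeff_succ (i : Fin (d - 1)) : (nu d t).coeff (i.1 + 1) = t (Sum.inl i) := by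
  have hi := i.2
  have h1 : i.1 + 1 ≠ d := by omega
  unfold nu
  rw [coeff_add, coeff_X_pow, if_neg h1, zero_add, finsetSum_coeff, sum_eq_single i]
  · rw [coeff_C_mul, coeff_X_pow, if_pos rfl, mul_one]
  · intro j _ hj
    rw [coeff_C_mul, coeff_X_pow, if_neg, mul_zero]
    intro h
    apply hj
    ext
    omega
  · intro h
    exact absurd (mem_univ _) h

theorem de_coeff_succ (i : Fin (d - 1)) : (de d t).coeff (i.1 + 1) = t (Sum.inr i) := by
  have hi := i.2
  unfold de
  rw [coeff_add, coeff_C, if_neg (Nat.succ_ne_zero _), zero_add, finsetSum_coeff, sum_eq_single i]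
  · rw [coeff_C_mul, coeff_X_pow, if_pos rfl, mul_one]
  · intro j _ hj
    rw [coeff_C_mul, coeff_X_pow, if_neg, mul_zero]
    intro h
    apply hj
    ext
    omega
  · intro h
    exact absurd (mem_univ _) h

theorem nu_coeff_zero (hd : 2 ≤ d) : (nu d t).coeff 0 = 0 := by
  have h1 : 0 ≠ d := by omega
  unfold nu
  rw [coeff_add, coeff_X_pow, if_neg h1, zero_add, finsetSum_coeff, sum_eq_zero]
  intro j _
  rw [coeff_C_mul, coeff_X_pow, if_neg (by omega), mul_zero]

theorem nu_coeff_self (hd : 2 ≤ d) : (nu d t).coeff d = 1 := by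
  unfold nu
  rw [coeff_add, coeff_X_pow, if_pos rfl, finsetSum_coeff, sum_eq_zero, add_zero]
  intro j _
  have := j.2
  rw [coeff_C_mul, coeff_X_pow, if_neg (by omega), mul_zero]

theorem nu_natDegree (hd : 2 ≤ d) : (nu d t).natDegree ≤ d := by
  unfold nu
  refine (natDegree_add_le _ _).trans (max_le (natDegree_X_pow_le d) ?_)
  refine natDegree_sum_le_of_forall_le _ _ fun j _ => ?_
  have := j.2
  exact (natDegree_C_mul_X_pow_le (t (Sum.inl j)) (j.1 + 1)).trans (by omega)

theorem de_natDegree (hd : 2 ≤ d) : (de d t).natDegree ≤ d - 1 := by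
  unfold de
  refine (natDegree_add_le _ _).trans (max_le ((natDegree_C _).le.trans (Nat.zero_le _)) ?_)
  refine natDegree_sum_le_of_forall_le _ _ fun j _ => ?_
  have := j.2
  exact (natDegree_C_mul_X_pow_le (t (Sum.inr j)) (j.1 + 1)).trans (by omega)

theorem de_coeff_self (hd : 2 ≤ d) : (de d t).coeff d = 0 :=
  coeff_eq_zero_of_natDegree_lt (lt_of_le_of_lt (de_natDegree t hd) (by omega))

theorem nu_de_one : (nu d t).eval 1 = (de d t).eval 1 := by
  unfold nu de
  simp [eval_finsetSum]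

end nude

section field

variable {M : Type*} [Field M]

theorem eval_hm_ne (d : ℕ) (F P Q : M[X]) (s : M) (hF : F.natDegree ≤ d) (h : Q.eval s ≠ 0) :
    (hm d F P Q).eval s = Q.eval s ^ d * F.eval (P.eval s / Q.eval s) := by
  rw [eval_hm, eval_eq_sum_range' (Nat.lt_succ_of_le hF), mul_sum]
  refine sum_congr rfl fun i hi => ?_
  have hi' := Finset.mem_range.1 hi
  have e1 : Q.eval s ^ d = Q.eval s ^ i * Q.eval s ^ (d - i) := by
    rw [← pow_add]; congr 1; omega
  rw [e1, div_pow]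
  field_simp

theorem hm_hm [Infinite M] (d : ℕ) (F : M[X]) (hF : F.natDegree ≤ d) (μ z : M) (hμ : μ ≠ 0)
    (hz : z ≠ 0) :
    hm d (hm d F (C μ * X) (X - C z)) (C z * X - C (μ * 0)) (X - C μ) = C ((μ * z) ^ d) * F := by
  have hdeg : (hm d F (C μ * X) (X - C z)).natDegree ≤ d :=
    natDegree_hm _ _ _ _ ((natDegree_C_mul_le _ _).trans natDegree_X_le) (natDegree_X_sub_C_le _)
  refine eq_of_infinite_eval_eq _ _ ((Set.finite_singleton μ).infinite_compl.mono ?_)
  intro s hs
  have hs' : s - μ ≠ 0 := sub_ne_zero.2 hs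
  rw [Set.mem_ofPred_eq]
  rw [eval_hm_ne _ _ _ _ _ hdeg (by simpa using hs')]
  have e1 : (C z * X - C (μ * 0)).eval s / (X - C μ).eval s = z * s / (s - μ) := by simp
  rw [e1]
  have e2 : z * s / (s - μ) - z = μ * z / (s - μ) := by
    field_simp
    ring
  have e3 : (X - C z).eval (z * s / (s - μ)) = μ * z / (s - μ) := by
    rw [eval_sub, eval_X, eval_C, e2]
  rw [eval_hm_ne _ _ _ _ _ hF (by rw [e3]; exact div_ne_zero (mul_ne_zero hμ hz) hs'), e3]
  have e4 : (C μ * X).eval (z * s / (s - μ)) / (μ * z / (s - μ)) = s := by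
    rw [eval_mul, eval_C, eval_X]
    field_simp
  rw [e4, eval_sub, eval_X, eval_C, eval_mul, eval_C, div_pow]
  field_simp

/-- the numerator of the conjugate, with fixed points `0`, `1`, `1 - μ` -/
def pU (d : ℕ) (t : Ix d → M) (μ : M) : M[X] :=
  C (1 - μ) * hm d (nu d t) (C μ * X) (X - C (1 - μ))

/-- the denominator of the conjugate -/
def qU (d : ℕ) (t : Ix d → M) (μ : M) : M[X] :=
  hm d (nu d t) (C μ * X) (X - C (1 - μ)) - C μ * hm d (de d t) (C μ * X) (X - C (1 - μ))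

variable {d : ℕ} (hd : 2 ≤ d) (t : Ix d → M) (μ : M)

theorem natDegree_hmU (F : M[X]) : (hm d F (C μ * X) (X - C (1 - μ))).natDegree ≤ d :=
  natDegree_hm _ _ _ _ ((natDegree_C_mul_le _ _).trans natDegree_X_le) (natDegree_X_sub_C_le _)

theorem natDegree_pU : (pU d t μ).natDegree ≤ d :=
  (natDegree_C_mul_le _ _).trans (natDegree_hmU μ _)

theorem natDegree_qU : (qU d t μ).natDegree ≤ d := by
  unfold qU
  refine (natDegree_sub_le _ _).trans (max_le (natDegree_hmU μ _) ?_)
  exact (natDegree_C_mul_le _ _).trans (natDegree_hmU μ _)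

include hd in
theorem eval_qU_z : (qU d t μ).eval (1 - μ) = (μ * (1 - μ)) ^ d := by
  unfold qU
  rw [eval_sub, eval_mul, eval_hm_zero _ _ _ _ _ (by simp), eval_hm_zero _ _ _ _ _ (by simp),
    nu_coeff_self t hd, de_coeff_self t hd]
  simp

include hd in
theorem eval_pU_z : (pU d t μ).eval (1 - μ) = (1 - μ) * (qU d t μ).eval (1 - μ) := by
  rw [eval_qU_z hd]
  unfold pU
  rw [eval_mul, eval_hm_zero _ _ _ _ _ (by simp), nu_coeff_self t hd]
  simp

include hd in
theorem eval_pU_zero (h1 : 1 - μ ≠ 0) : (pU d t μ).eval 0 = 0 * (qU d t μ).eval 0 := by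
  unfold pU
  rw [eval_mul, eval_hm_ne _ _ _ _ _ (nu_natDegree t hd)
    (by rw [eval_sub, eval_X, eval_C, zero_sub]; exact neg_ne_zero.2 h1)]
  have : (nu d t).eval 0 = 0 := by
    rw [← coeff_zero_eq_eval_zero, nu_coeff_zero t hd]
  simp [this]

include hd in
theorem eval_pU_one (h0 : μ ≠ 0) : (pU d t μ).eval 1 = 1 * (qU d t μ).eval 1 := by
  unfold pU qU
  have e : (X - C (1 - μ)).eval 1 = μ := by simp
  have e' : (C μ * X).eval 1 = μ := by simp
  rw [eval_mul, eval_sub, eval_mul, eval_hm_ne _ _ _ _ _ (nu_natDegree t hd) (by rwa [e]),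
    eval_hm_ne _ _ _ _ _ ((de_natDegree t hd).trans (by omega)) (by rwa [e]), e, e', div_self h0,
    nu_de_one, eval_C, eval_C]
  ring

include hd in
theorem coeff_qU : (qU d t μ).coeff d = (nu d t).eval μ - μ * (de d t).eval μ := by
  unfold qU
  rw [coeff_sub, coeff_C_mul, coeff_hm, coeff_hm,
    eval_eq_sum_range' (Nat.lt_succ_of_le (nu_natDegree t hd)),
    eval_eq_sum_range' (Nat.lt_succ_of_le ((de_natDegree t hd).trans (Nat.sub_le d 1)))]
  · simp
  · exact (natDegree_C_mul_le _ _).trans natDegree_X_le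
  · exact natDegree_X_sub_C_le _
  · rw [coeff_sub, coeff_X_one, coeff_C, if_neg one_ne_zero, sub_zero]
  · exact (natDegree_C_mul_le _ _).trans natDegree_X_le
  · exact natDegree_X_sub_C_le _
  · rw [coeff_sub, coeff_X_one, coeff_C, if_neg one_ne_zero, sub_zero]

include hd in
theorem kap_U [Infinite M] (h0 : μ ≠ 0) (h1 : 1 - μ ≠ 0) :
    kap d (pU d t μ) (qU d t μ) 0 1 (1 - μ) = t := by
  have hz : (1 - (1 - μ)) / (1 - 0) = μ := by simp
  have hn := hm_hm d (nu d t) (nu_natDegree t hd) μ (1 - μ) h0 h1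
  have hdd := hm_hm d (de d t) ((de_natDegree t hd).trans (Nat.sub_le d 1)) μ (1 - μ) h0 h1
  have hc : μ * (1 - μ) * (μ * (1 - μ)) ^ d ≠ 0 :=
    mul_ne_zero (mul_ne_zero h0 h1) (pow_ne_zero _ (mul_ne_zero h0 h1))
  have eu : u0 d (pU d t μ) (qU d t μ) 0 1 (1 - μ) =
      C (μ * (1 - μ) * (μ * (1 - μ)) ^ d) * nu d t := by
    unfold u0
    rw [hz, C_0, zero_mul, sub_zero]
    unfold pU
    rw [hm_C_mul, hn]
    simp only [C_mul]
    ring
  have ew : w0 d (pU d t μ) (qU d t μ) 0 1 (1 - μ) =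
      C (μ * (1 - μ) * (μ * (1 - μ)) ^ d) * de d t := by
    unfold w0
    rw [hz]
    unfold pU qU
    rw [hm_sub, hm_C_mul, hm_C_mul, hn, hdd]
    simp only [C_mul]
    ring
  funext i
  rcases i with i | i
  · show (u0 d (pU d t μ) (qU d t μ) 0 1 (1 - μ)).coeff (i.1 + 1) /
      ((1 - (1 - μ)) / (1 - 0) * (1 - μ - 0) * (qU d t μ).eval (1 - μ)) = _
    rw [eu, hz, eval_qU_z hd, sub_zero, coeff_C_mul, nu_coeff_succ]
    field_simp
  · show (w0 d (pU d t μ) (qU d t μ) 0 1 (1 - μ)).coeff (i.1 + 1) /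
      ((1 - (1 - μ)) / (1 - 0) * (1 - μ - 0) * (qU d t μ).eval (1 - μ)) = _
    rw [ew, hz, eval_qU_z hd, sub_zero, coeff_C_mul, de_coeff_succ]
    field_simp

theorem ofc_coeff (p : M[X]) (hp : p.natDegree ≤ d) :
    ofc d (fun i => p.coeff i.1) = p := by
  unfold ofc
  rw [Fin.sum_univ_eq_sum_range (fun i => C (p.coeff i) * X ^ i) (d + 1)]
  exact (as_sum_range_C_mul_X_pow' p (Nat.lt_succ_of_le hp)).symm

end field

theorem exists_point (M : Type) [Field M] [CharZero M] {d : ℕ} (hd : 2 ≤ d)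
    (D : MvPolynomial (Ix d) ℤ) (hD : D ≠ 0) :
    ∃ (a b : Fin (d + 1) → M) (x y z : M), x ≠ y ∧ y ≠ z ∧ x ≠ z ∧
      (ofc d a).eval x = x * (ofc d b).eval x ∧
      (ofc d a).eval y = y * (ofc d b).eval y ∧ (ofc d a).eval z = z * (ofc d b).eval z ∧
      b (Fin.last d) ≠ 0 ∧ (ofc d b).eval z ≠ 0 ∧
      MvPolynomial.aeval (kap d (ofc d a) (ofc d b) x y z) D ≠ 0 := by
  have hd1 : d - 2 < d - 1 := by omega
  let i0 : Fin (d - 1) := ⟨d - 2, hd1⟩
  have hne : D * (1 - MvPolynomial.X (Sum.inr i0)) ≠ 0 := by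
    refine mul_ne_zero hD ?_
    intro h
    have := congrArg (MvPolynomial.eval (fun _ => (0 : ℤ))) h
    simp at this
  obtain ⟨s, hs⟩ : ∃ s : Ix d → ℤ, MvPolynomial.eval s (D * (1 - MvPolynomial.X (Sum.inr i0))) ≠ 0 := by
    by_contra hcon
    push Not at hcon
    apply hne
    apply MvPolynomial.funext
    intro x
    rw [hcon x, map_zero]
  rw [map_mul, mul_ne_zero_iff] at hs
  obtain ⟨hs1, hs2⟩ := hs
  let t : Ix d → M := fun i => (s i : M)
  have hDt : MvPolynomial.aeval t D ≠ 0 := by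
    have : MvPolynomial.aeval t D = ((MvPolynomial.eval s D : ℤ) : M) := by
      rw [MvPolynomial.aeval_def, algebraMap_int_eq, MvPolynomial.eval₂_eq_eval_map]
      have := MvPolynomial.map_eval (Int.castRingHom M) s D
      rw [eq_intCast] at this
      rw [this]
      rfl
    rw [this]
    exact Int.cast_ne_zero.2 hs1
  have hF : nu d t - X * de d t ≠ 0 := by
    intro h
    have h2 := congrArg (fun P => coeff P (d - 2 + 1 + 1)) h
    simp only [coeff_sub, coeff_X_mul, coeff_zero] at h2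
    have h3 := de_coeff_succ t i0
    have h4 := nu_coeff_self t hd
    have h5 : d - 2 + 1 + 1 = d := by omega
    have h6 : i0.1 + 1 = d - 2 + 1 := rfl
    rw [h6] at h3
    rw [h3, h5, h4] at h2
    apply hs2
    have h7 : ((1 - s (Sum.inr i0) : ℤ) : M) = 0 := by
      push_cast
      exact h2
    have h8 := Int.cast_eq_zero.1 h7
    simpa using h8
  obtain ⟨μ, hμ⟩ : ∃ μ : M, ((nu d t - X * de d t) * (X * (X - C 1))).eval μ ≠ 0 := by
    by_contra hcon
    push Not at hcon
    have : (nu d t - X * de d t) * (X * (X - C 1)) = 0 := by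
      apply Polynomial.funext
      intro r
      rw [hcon r, eval_zero]
    exact mul_ne_zero hF (mul_ne_zero X_ne_zero (X_sub_C_ne_zero 1)) this
  rw [eval_mul, eval_mul, mul_ne_zero_iff, mul_ne_zero_iff] at hμ
  obtain ⟨hμ1, hμ2, hμ3⟩ := hμ
  rw [eval_X] at hμ2
  have hμ3' : 1 - μ ≠ 0 := by
    rw [eval_sub, eval_X, eval_C] at hμ3
    intro h
    apply hμ3
    rw [← neg_sub, h, neg_zero]
  refine ⟨fun i => (pU d t μ).coeff i.1, fun i => (qU d t μ).coeff i.1, 0, 1, 1 - μ, ?_, ?_, ?_, ?_,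
    ?_, ?_, ?_, ?_, ?_⟩
  · exact zero_ne_one
  · intro h
    apply hμ2
    linear_combination h
  · exact hμ3'.symm
  · rw [ofc_coeff _ (natDegree_pU t μ), ofc_coeff _ (natDegree_qU t μ)]
    exact eval_pU_zero hd t μ hμ3'
  · rw [ofc_coeff _ (natDegree_pU t μ), ofc_coeff _ (natDegree_qU t μ)]
    exact eval_pU_one hd t μ hμ2
  · rw [ofc_coeff _ (natDegree_pU t μ), ofc_coeff _ (natDegree_qU t μ)]
    exact eval_pU_z hd t μ
  · show (qU d t μ).coeff (Fin.last d).1 ≠ 0
    rw [Fin.val_last, coeff_qU hd]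
    rw [eval_sub, eval_mul, eval_X] at hμ1
    exact hμ1
  · rw [ofc_coeff _ (natDegree_qU t μ), eval_qU_z hd]
    exact pow_ne_zero _ (mul_ne_zero hμ2 hμ3')
  · rw [ofc_coeff _ (natDegree_pU t μ), ofc_coeff _ (natDegree_qU t μ), kap_U hd t μ hμ2 hμ3']
    exact hDt

end

end Pool.Agent.X200.Del
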