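import Mathlib
import Pool.Agent.X200.Del.Pt
import Pool.Agent.X200.Del.Ext

/-!
# Functoriality of the normal form
-/

set_option autoImplicit false

namespace Pool.Agent.X200.Del

open Polynomial Finset
open Pool.Agent.X328.GN (Ix nu de hm u0 w0 kap ofc)

universe u v w

noncomputable section

section ring

variable {A : Type u} [CommRing A]

def ofr (d : ℕ) (c : Fin (d + 1) → A) : A[X] := ∑ i, C (c i) * X ^ i.1

def ur (d : ℕ) (p q : A[X]) (x z μ : A) : A[X] :=
  C μ * (hm d p (C z * X - C (μ * x)) (X - C μ) - C x * hm d q (C z * X - C (μ * x)) (X - C μ))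

def vr (d : ℕ) (p q : A[X]) (x z μ : A) : A[X] :=
  hm d p (C z * X - C (μ * x)) (X - C μ) - C z * hm d q (C z * X - C (μ * x)) (X - C μ)

def kr (d : ℕ) (a b : Fin (d + 1) → A) (x z μ ν : A) : Ix d → A
  | Sum.inl i => (ur d (ofr d a) (ofr d b) x z μ).coeff (i.1 + 1) * ν
  | Sum.inr i => (vr d (ofr d a) (ofr d b) x z μ).coeff (i.1 + 1) * ν

variable {B : Type v} [CommRing B] (f : A →+* B)

theorem map_ofr (d : ℕ) (c : Fin (d + 1) → A) :
    (ofr d c).map f = ofr d (fun i => f (c i)) := by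
  unfold ofr
  rw [Polynomial.map_sum]
  refine sum_congr rfl fun i _ => ?_
  simp

theorem map_ur (d : ℕ) (p q : A[X]) (x z μ : A) :
    (ur d p q x z μ).map f = ur d (p.map f) (q.map f) (f x) (f z) (f μ) := by
  unfold ur
  simp [map_hm]

theorem map_vr (d : ℕ) (p q : A[X]) (x z μ : A) :
    (vr d p q x z μ).map f = vr d (p.map f) (q.map f) (f x) (f z) (f μ) := by
  unfold vr
  simp [map_hm]

theorem eval_ofr (d : ℕ) (c : Fin (d + 1) → A) (x : A) :
    f ((ofr d c).eval x) = (ofr d (fun i => f (c i))).eval (f x) := by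
  rw [← map_ofr, eval_map_apply]

theorem map_kr (d : ℕ) (a b : Fin (d + 1) → A) (x z μ ν : A) (i : Ix d) :
    f (kr d a b x z μ ν i) =
      kr d (fun i => f (a i)) (fun i => f (b i)) (f x) (f z) (f μ) (f ν) i := by
  rcases i with i | i
  · show f ((ur d (ofr d a) (ofr d b) x z μ).coeff (i.1 + 1) * ν) =
      (ur d (ofr d fun i => f (a i)) (ofr d fun i => f (b i)) (f x) (f z) (f μ)).coeff (i.1 + 1) * f ν
    rw [← map_ofr f d a, ← map_ofr f d b, ← map_ur, coeff_map, map_mul]
  · show f ((vr d (ofr d a) (ofr d b) x z μ).coeff (i.1 + 1) * ν) =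
      (vr d (ofr d fun i => f (a i)) (ofr d fun i => f (b i)) (f x) (f z) (f μ)).coeff (i.1 + 1) * f ν
    rw [← map_ofr f d a, ← map_ofr f d b, ← map_vr, coeff_map, map_mul]

theorem map_aev {σ : Type*} (κ : σ → A) (D : MvPolynomial σ ℤ) :
    f (MvPolynomial.aeval κ D) = MvPolynomial.aeval (fun i => f (κ i)) D :=
  MvPolynomial.comp_aeval_apply (f := κ) f.toIntAlgHom D

end ring

section field

variable {A : Type u} [CommRing A] {K : Type v} [Field K] (f : A →+* K)

theorem kap_eq (d : ℕ) (a b : Fin (d + 1) → A) (x y z m n : A) (h1 : IsUnit (y - x))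
    (h2 : m * (y - x) = y - z) (h3 : n * (m * (z - x) * (ofr d b).eval z) = 1) :
    (fun i => f (kr d a b x z m n i)) =
      kap d (ofc d fun i => f (a i)) (ofc d fun i => f (b i)) (f x) (f y) (f z) := by
  have e1 : f y - f x ≠ 0 := by
    rw [← map_sub]
    exact (h1.map f).ne_zero
  have e2 : f m = (f y - f z) / (f y - f x) := by
    rw [eq_div_iff e1, ← map_sub, ← map_mul, h2, map_sub]
  have e3 : f n * (f m * (f z - f x) * (ofc d fun i => f (b i)).eval (f z)) = 1 := by
    have := congrArg f h3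
    rw [map_mul, map_mul, map_mul, map_sub, eval_ofr, map_one] at this
    exact this
  have e4 : f n = ((f y - f z) / (f y - f x) * (f z - f x) *
      (ofc d fun i => f (b i)).eval (f z))⁻¹ := by
    rw [← e2]
    exact eq_inv_of_mul_eq_one_left e3
  funext i
  rw [map_kr]
  rcases i with i | i
  · show (ur d (ofr d fun i => f (a i)) (ofr d fun i => f (b i)) (f x) (f z) (f m)).coeff (i.1 + 1) *
      f n = _
    rw [e4, e2]
    exact (div_eq_mul_inv _ _).symm
  · show (vr d (ofr d fun i => f (a i)) (ofr d fun i => f (b i)) (f x) (f z) (f m)).coeff (i.1 + 1) *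
      f n = _
    rw [e4, e2]
    exact (div_eq_mul_inv _ _).symm

end field

/-- the constants `μ` and `1 / ℓ` over a ring -/
theorem exists_mn {A : Type u} [CommRing A] (x y z q : A)
    (h1 : IsUnit (y - x)) (h2 : IsUnit (y - z)) (h3 : IsUnit (z - x)) (h4 : IsUnit q) :
    ∃ m n : A, m * (y - x) = y - z ∧ n * (m * (z - x) * q) = 1 := by
  obtain ⟨v1, hv1⟩ := h1.exists_left_inv
  have hm : (y - z) * v1 * (y - x) = y - z := by rw [mul_assoc, hv1, mul_one]
  have hmu : IsUnit ((y - z) * v1) := by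
    apply isUnit_of_mul_isUnit_left (y := y - x)
    rw [hm]
    exact h2
  obtain ⟨n, hn⟩ := ((hmu.mul h3).mul h4).exists_left_inv
  exact ⟨_, n, hm, hn⟩

end

end Pool.Agent.X200.Del
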