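import Mathlib
import Pool.Agent.X200.Del.Fun
import Pool.Agent.X328.GN.Stm3

/-!
# Clearing denominators
-/

set_option autoImplicit false

namespace Pool.Agent.X200.Del

open Polynomial Finset
open Pool.Agent.X328.GN (Ix nu de hm u0 w0 kap ofc S_CLR)

universe u v w

noncomputable section

/-- `δ = (y - x) (y - z) (z - x) q(z)` -/
def dl {C : Type u} [CommRing C] (d : ℕ) (b : Fin (d + 1) → C) (x y z : C) : C :=
  (y - x) * (y - z) * (z - x) * (ofr d b).eval z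

/-- the condition on the point -/
def Cnd {K : Type w} [Field K] (d : ℕ) (D : MvPolynomial (Ix d) ℤ) (a b : Fin (d + 1) → K)
    (x y z : K) : Prop :=
  y ≠ x ∧ y ≠ z ∧ z ≠ x ∧ (ofc d b).eval z ≠ 0 ∧
    MvPolynomial.aeval (kap d (ofc d a) (ofc d b) x y z) D ≠ 0

theorem clear_aux {C : Type u} [CommRing C] {C1 : Type v} [CommRing C1] {d : ℕ}
    (a b : Fin (d + 1) → C) (x y z : C) (i : C →+* C1) (m n : C1)
    (hm : m * (i y - i x) = i y - i z) (hu : IsUnit (i y - i x))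
    (hn : n * (m * (i z - i x) * (ofr d fun k => i (b k)).eval (i z)) = 1)
    (D : MvPolynomial (Ix d) ℤ) (s : C) (N : ℕ)
    (hs : MvPolynomial.aeval (kr d (fun k => i (a k)) (fun k => i (b k)) (i x) (i z) m n) D *
      i (dl d b x y z) ^ N = i s) {K : Type w} [Field K] (ψ : C →+* K)
    (hext : ψ (dl d b x y z) ≠ 0 → ∃ ψ1 : C1 →+* K, ∀ c, ψ1 (i c) = ψ c) :
    ψ (s * dl d b x y z) ≠ 0 ↔
      Cnd d D (fun k => ψ (a k)) (fun k => ψ (b k)) (ψ x) (ψ y) (ψ z) := by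
  have hδ : ψ (dl d b x y z) ≠ 0 ↔ ψ y ≠ ψ x ∧ ψ y ≠ ψ z ∧ ψ z ≠ ψ x ∧
      (ofc d fun k => ψ (b k)).eval (ψ z) ≠ 0 := by
    unfold dl
    rw [map_mul, map_mul, map_mul, map_sub, map_sub, map_sub, eval_ofr, mul_ne_zero_iff,
      mul_ne_zero_iff, mul_ne_zero_iff, sub_ne_zero, sub_ne_zero, sub_ne_zero]
    constructor
    · rintro ⟨⟨⟨q1, q2⟩, q3⟩, q4⟩
      exact ⟨q1, q2, q3, q4⟩
    · rintro ⟨q1, q2, q3, q4⟩
      exact ⟨⟨⟨q1, q2⟩, q3⟩, q4⟩
  have key : ψ (dl d b x y z) ≠ 0 → (ψ s ≠ 0 ↔ MvPolynomial.aeval (kap d (ofc d fun k => ψ (a k))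
      (ofc d fun k => ψ (b k)) (ψ x) (ψ y) (ψ z)) D ≠ 0) := by
    intro h
    obtain ⟨ψ1, hψ1⟩ := hext h
    have k1 := kap_eq ψ1 d (fun k => i (a k)) (fun k => i (b k)) (i x) (i y) (i z) m n hu hm hn
    simp only [hψ1] at k1
    rw [← k1, ← map_aev]
    have h2 := congrArg ψ1 hs
    rw [map_mul, map_pow, hψ1, hψ1] at h2
    rw [← h2, mul_ne_zero_iff]
    exact ⟨fun h3 => h3.1, fun h3 => ⟨h3, pow_ne_zero _ h⟩⟩
  unfold Cnd
  rw [map_mul, mul_ne_zero_iff]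
  constructor
  · rintro ⟨h1, h2⟩
    obtain ⟨q1, q2, q3, q4⟩ := hδ.1 h2
    exact ⟨q1, q2, q3, q4, (key h2).1 h1⟩
  · rintro ⟨q1, q2, q3, q4, q5⟩
    have h2 := hδ.2 ⟨q1, q2, q3, q4⟩
    exact ⟨(key h2).2 q5, h2⟩

theorem clear_aux2 {C : Type u} [CommRing C] {d : ℕ} (a b : Fin (d + 1) → C) (x y z : C)
    (D : MvPolynomial (Ix d) ℤ) (C1 : Type u) [CommRing C1] [Algebra C C1]
    [IsLocalization.Away (dl d b x y z) C1] :
    ∃ s : C, (∀ (K : Type v) [Field K] (ψ : C →+* K), ψ s ≠ 0 ↔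
      Cnd d D (fun k => ψ (a k)) (fun k => ψ (b k)) (ψ x) (ψ y) (ψ z)) ∧
    (∀ (K : Type w) [Field K] (ψ : C →+* K), ψ s ≠ 0 ↔
      Cnd d D (fun k => ψ (a k)) (fun k => ψ (b k)) (ψ x) (ψ y) (ψ z)) := by
  let δ : C := dl d b x y z
  let i : C →+* C1 := algebraMap C C1
  have hδ : IsUnit (i δ) := IsLocalization.Away.algebraMap_isUnit δ
  have hδ2 : i δ = (i y - i x) * (i y - i z) * (i z - i x) * (ofr d fun k => i (b k)).eval (i z) := by
    show i (dl d b x y z) = _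
    unfold dl
    rw [map_mul, map_mul, map_mul, map_sub, map_sub, map_sub, eval_ofr]
  rw [hδ2] at hδ
  have u4 := isUnit_of_mul_isUnit_right hδ
  have u123 := isUnit_of_mul_isUnit_left hδ
  have u3 := isUnit_of_mul_isUnit_right u123
  have u12 := isUnit_of_mul_isUnit_left u123
  have u2 := isUnit_of_mul_isUnit_right u12
  have u1 := isUnit_of_mul_isUnit_left u12
  obtain ⟨m, n, hm, hn⟩ := exists_mn (i x) (i y) (i z) _ u1 u2 u3 u4
  obtain ⟨⟨s, t⟩, hst⟩ := IsLocalization.surj (Submonoid.powers δ)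
    (MvPolynomial.aeval (kr d (fun k => i (a k)) (fun k => i (b k)) (i x) (i z) m n) D)
  obtain ⟨N, hN⟩ := t.2
  have hs : MvPolynomial.aeval (kr d (fun k => i (a k)) (fun k => i (b k)) (i x) (i z) m n) D *
      i (dl d b x y z) ^ N = i s := by
    rw [← map_pow]
    have : (dl d b x y z) ^ N = (t : C) := hN
    rw [this]
    exact hst
  refine ⟨s * δ, fun K _ ψ => ?_, fun K _ ψ => ?_⟩
  · exact clear_aux a b x y z i m n hm u1 hn D s N hs ψ fun h =>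
      ⟨IsLocalization.Away.lift δ (isUnit_iff_ne_zero.2 h), fun c => IsLocalization.Away.lift_eq _ _ _⟩
  · exact clear_aux a b x y z i m n hm u1 hn D s N hs ψ fun h =>
      ⟨IsLocalization.Away.lift δ (isUnit_iff_ne_zero.2 h), fun c => IsLocalization.Away.lift_eq _ _ _⟩

/-- clearing denominators over a ring -/
theorem clear {C : Type u} [CommRing C] {d : ℕ} (a b : Fin (d + 1) → C) (x y z : C)
    (D : MvPolynomial (Ix d) ℤ) :
    ∃ s : C, (∀ (K : Type v) [Field K] (ψ : C →+* K), ψ s ≠ 0 ↔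
      Cnd d D (fun k => ψ (a k)) (fun k => ψ (b k)) (ψ x) (ψ y) (ψ z)) ∧
    (∀ (K : Type w) [Field K] (ψ : C →+* K), ψ s ≠ 0 ↔
      Cnd d D (fun k => ψ (a k)) (fun k => ψ (b k)) (ψ x) (ψ y) (ψ z)) :=
  clear_aux2 a b x y z D (Localization.Away (dl d b x y z))

theorem t_CLR : S_CLR.{u} := by
  intro d hd D
  obtain ⟨E, hE, -⟩ := clear.{0, u, u} (C := MvPolynomial ((Fin (d + 1) ⊕ Fin (d + 1)) ⊕ Fin 3) ℤ)
    (fun i : Fin (d + 1) => MvPolynomial.X (Sum.inl (Sum.inl i)))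
    (fun i => MvPolynomial.X (Sum.inl (Sum.inr i))) (MvPolynomial.X (Sum.inr 0))
    (MvPolynomial.X (Sum.inr 1)) (MvPolynomial.X (Sum.inr 2)) D
  refine ⟨E, fun K _ a b x y z => ?_⟩
  have h := hE K (MvPolynomial.aeval (R := ℤ) (Sum.elim (Sum.elim a b) ![x, y, z])).toRingHom
  simp only [AlgHom.toRingHom_eq_coe, RingHom.coe_coe, MvPolynomial.aeval_X, Sum.elim_inl,
    Sum.elim_inr, Matrix.cons_val_zero, Matrix.cons_val_one, Matrix.cons_val] at h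
  rw [h]
  unfold Cnd
  constructor
  · rintro ⟨q1, q2, q3, q4, q5⟩
    exact ⟨q1.symm, q2, q3.symm, q4, q5⟩
  · rintro ⟨q1, q2, q3, q4, q5⟩
    exact ⟨q1.symm, q2, q3.symm, q4, q5⟩

end

end Pool.Agent.X200.Del
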