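import Mathlib
import Pool.Agent.X200.Del.Ext

/-!
# Extension of specializations with a prescribed nonvanishing element

`A` integrally closed, `C` integral over `A`, `s` in `C` is not zero for one specialization `ψ₀` of `C`: then
there is a `c` in `A`, not zero for `ψ₀`, such that all specializations of `A` with `c ≠ 0` extend to
specializations of `C` with `s ≠ 0`.
-/

set_option autoImplicit false

namespace Pool.Agent.X200.Del

open Polynomial

universe u v w t

theorem ext_root {A : Type u} {C : Type v} {K : Type w} [CommRing A] [IsDomain A]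
    [IsIntegrallyClosed A] [CommRing C] [IsDomain C] [Algebra A C] [Algebra.IsIntegral A C]
    (hAC : Function.Injective (algebraMap A C)) [Field K] [IsAlgClosed K] (φ : A →+* K) (s : C)
    (ρ : K) (hρ : (minpoly A s).eval₂ φ ρ = 0) :
    ∃ ψ : C →+* K, (∀ a, ψ (algebraMap A C a) = φ a) ∧ ψ s = ρ := by
  haveI : FaithfulSMul A C := (faithfulSMul_iff_algebraMap_injective _ _).2 hAC
  haveI : Module.IsTorsionFree A C := Module.IsTorsionFree.trans_faithfulSMul A C C
  have hs : IsIntegral A s := Algebra.IsIntegral.isIntegral s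
  have h0 : (minpoly A s).eval₂ (algebraMap A C) s = 0 := minpoly.aeval A s
  let θ : AdjoinRoot (minpoly A s) →+* C := AdjoinRoot.lift (algebraMap A C) s h0
  have hθof : ∀ a, θ (AdjoinRoot.of _ a) = algebraMap A C a := fun a => AdjoinRoot.lift_of h0
  have hθroot : θ (AdjoinRoot.root _) = s := AdjoinRoot.lift_root h0
  letI : Algebra (AdjoinRoot (minpoly A s)) C := θ.toAlgebra
  have hinj : Function.Injective (algebraMap (AdjoinRoot (minpoly A s)) C) := by
    show Function.Injective θ
    rw [injective_iff_map_eq_zero]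
    intro x hx
    obtain ⟨P, rfl⟩ := AdjoinRoot.mk_surjective x
    have h1 : P.eval₂ (algebraMap A C) s = 0 := by
      rw [← hx]
      exact (AdjoinRoot.lift_mk h0 P).symm
    have h2 : minpoly A s ∣ P := minpoly.isIntegrallyClosed_dvd hs h1
    exact AdjoinRoot.mk_eq_zero.2 h2
  haveI : Algebra.IsIntegral (AdjoinRoot (minpoly A s)) C := by
    constructor
    intro c
    obtain ⟨P, hP, hP2⟩ := Algebra.IsIntegral.isIntegral (R := A) c
    refine ⟨P.map (AdjoinRoot.of _), hP.map _, ?_⟩
    rw [eval₂_map]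
    have : (algebraMap (AdjoinRoot (minpoly A s)) C).comp (AdjoinRoot.of (minpoly A s)) =
        algebraMap A C := by
      ext a
      exact hθof a
    rw [this, hP2]
  obtain ⟨ψ, hψ⟩ := ext_int hinj (AdjoinRoot.lift φ ρ hρ)
  refine ⟨ψ, fun a => ?_, ?_⟩
  · have h1 := hψ (AdjoinRoot.of _ a)
    rw [AdjoinRoot.lift_of] at h1
    rw [← h1]
    exact congrArg ψ (hθof a).symm
  · have h1 := hψ (AdjoinRoot.root _)
    rw [AdjoinRoot.lift_root] at h1
    rw [← h1]
    exact congrArg ψ hθroot.symm

theorem exists_root_ne_zero {K : Type u} [Field K] [IsAlgClosed K] (P : K[X]) (hP : P.Monic)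
    (j : ℕ) (hj : j < P.natDegree) (hc : P.coeff j ≠ 0) : ∃ ρ, P.eval ρ = 0 ∧ ρ ≠ 0 := by
  by_contra hcon
  push Not at hcon
  have h1 : ∀ r ∈ P.roots, r = 0 := fun r hr => hcon r ((mem_roots hP.ne_zero).1 hr)
  have h2 : P.roots = Multiset.replicate P.roots.card 0 := Multiset.eq_replicate_card.2 h1
  have h3 := (IsAlgClosed.splits P).eq_prod_roots_of_monic hP
  have h4 : P.roots.card = P.natDegree := IsAlgClosed.card_roots_eq_natDegree
  rw [h2, Multiset.map_replicate, Multiset.prod_replicate, C_0, sub_zero, h4] at h3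
  apply hc
  rw [h3, coeff_X_pow, if_neg]
  omega

theorem exists_norm {A : Type u} {C : Type v} [CommRing A] [IsDomain A]
    [IsIntegrallyClosed A] [CommRing C] [IsDomain C] [Algebra A C] [Algebra.IsIntegral A C]
    (hAC : Function.Injective (algebraMap A C)) (s : C) {M : Type t} [Field M] (ψ₀ : C →+* M)
    (hs : ψ₀ s ≠ 0) : ∃ c : A, ψ₀ (algebraMap A C c) ≠ 0 ∧
    ∀ (K : Type w) [Field K] [IsAlgClosed K] (φ : A →+* K), φ c ≠ 0 →
      ∃ ψ : C →+* K, (∀ a, ψ (algebraMap A C a) = φ a) ∧ ψ s ≠ 0 := by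
  have hint : IsIntegral A s := Algebra.IsIntegral.isIntegral s
  have hmo : (minpoly A s).Monic := minpoly.monic hint
  have h0 : (minpoly A s).eval₂ (algebraMap A C) s = 0 := minpoly.aeval A s
  have h1 : ((minpoly A s).map (ψ₀.comp (algebraMap A C))).eval (ψ₀ s) = 0 := by
    rw [eval_map, ← hom_eval₂, h0, map_zero]
  have h2 : ∃ j < (minpoly A s).natDegree, ψ₀ (algebraMap A C ((minpoly A s).coeff j)) ≠ 0 := by
    by_contra hcon
    push Not at hcon
    have h3 : (minpoly A s).map (ψ₀.comp (algebraMap A C)) = X ^ (minpoly A s).natDegree := by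
      ext j
      rw [coeff_map, coeff_X_pow]
      rcases lt_trichotomy j (minpoly A s).natDegree with h | h | h
      · rw [if_neg h.ne]
        exact hcon j h
      · rw [if_pos h, h, hmo.coeff_natDegree, map_one]
      · rw [if_neg h.ne', coeff_eq_zero_of_natDegree_lt h, map_zero]
    rw [h3, eval_pow, eval_X] at h1
    exact (pow_ne_zero _ hs) h1
  obtain ⟨j, hj, hj2⟩ := h2
  refine ⟨_, hj2, fun K _ _ φ hφ => ?_⟩
  obtain ⟨ρ, hρ, hρ0⟩ := exists_root_ne_zero ((minpoly A s).map φ) (hmo.map φ) j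
    (by rwa [hmo.natDegree_map]) (by rwa [coeff_map])
  rw [eval_map] at hρ
  obtain ⟨ψ, hψ, hψs⟩ := ext_root hAC φ s ρ hρ
  exact ⟨ψ, hψ, by rwa [hψs]⟩

end Pool.Agent.X200.Del
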