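import Mathlib
import Pool.Agent.X200.Del.Pt
import Pool.Agent.X328.GN.Stm3

/-!
# The point of the class of `X ^ d`
-/

set_option autoImplicit false

namespace Pool.Agent.X200.Del

open Polynomial Finset
open Pool.Agent.X328.GN (Ix nu de hm u0 w0 kap ofc az bz)

noncomputable section

variable {M : Type*} [Field M]

/-- the numerator `2 ^ d X ^ d` -/
def p1 (d : ℕ) : M[X] := C (2 ^ d) * X ^ d

/-- the denominator `2 ^ d X ^ d - 2 (X - 1) ^ d` -/
def q1 (d : ℕ) : M[X] := C (2 ^ d) * X ^ d - C 2 * (X - 1) ^ d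

theorem natDegree_p1 (d : ℕ) : (p1 d : M[X]).natDegree ≤ d := natDegree_C_mul_X_pow_le _ _

theorem natDegree_q1 (d : ℕ) : (q1 d : M[X]).natDegree ≤ d := by
  unfold q1
  refine (natDegree_sub_le _ _).trans (max_le (natDegree_C_mul_X_pow_le _ _) ?_)
  refine (natDegree_C_mul_le _ _).trans ?_
  have h1 : (X - 1 : M[X]).natDegree ≤ 1 := by
    rw [← C_1]
    exact natDegree_X_sub_C_le _
  exact (natDegree_pow_le_of_le d h1).trans (by omega)

theorem ofc_az [CharZero M] (d : ℕ) :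
    ofc d (fun i => algebraMap ℚ M (az d i)) = (p1 d : M[X]) := by
  have h : (fun i : Fin (d + 1) => algebraMap ℚ M (az d i)) = fun i => (p1 d : M[X]).coeff i.1 := by
    funext i
    have : (p1 d : M[X]) = (C (2 ^ d) * X ^ d : ℚ[X]).map (algebraMap ℚ M) := by
      unfold p1
      simp
    rw [this, coeff_map]
    rfl
  rw [h, ofc_coeff _ (natDegree_p1 d)]

theorem bz_eq [CharZero M] (d : ℕ) (i : Fin (d + 1)) :
    algebraMap ℚ M (bz d i) = (q1 d : M[X]).coeff i.1 := by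
  have : (q1 d : M[X]) = (C (2 ^ d) * X ^ d - C 2 * (X - 1) ^ d : ℚ[X]).map (algebraMap ℚ M) := by
    unfold q1
    simp
  rw [this, coeff_map]
  rfl

theorem ofc_bz [CharZero M] (d : ℕ) :
    ofc d (fun i => algebraMap ℚ M (bz d i)) = (q1 d : M[X]) := by
  have h : (fun i : Fin (d + 1) => algebraMap ℚ M (bz d i)) = fun i => (q1 d : M[X]).coeff i.1 := by
    funext i
    exact bz_eq d i
  rw [h, ofc_coeff _ (natDegree_q1 d)]

theorem bz_last [CharZero M] {d : ℕ} (hd : 2 ≤ d) :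
    algebraMap ℚ M (bz d (Fin.last d)) ≠ 0 := by
  rw [bz_eq, Fin.val_last]
  have h1 : ((X - 1 : M[X]) ^ d).coeff d = 1 := by
    have h2 : (X - 1 : M[X]).natDegree ≤ 1 := by
      rw [← C_1]
      exact natDegree_X_sub_C_le _
    have h3 := coeff_pow_of_natDegree_le (m := d) h2
    rw [mul_one] at h3
    rw [h3]
    simp [coeff_one]
  unfold q1
  rw [coeff_sub, coeff_C_mul, coeff_C_mul, coeff_X_pow, if_pos rfl, h1, mul_one, mul_one]
  have h4 : ((2 ^ d - 2 : ℤ) : M) ≠ 0 := by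
    rw [Int.cast_ne_zero]
    have : (2 : ℤ) ^ 2 ≤ 2 ^ d := pow_le_pow_right₀ (by norm_num) hd
    omega
  push_cast at h4
  exact h4

theorem hm_Xpow (d : ℕ) (c : M) (P Q : M[X]) : hm d (C c * X ^ d) P Q = C c * P ^ d := by
  rw [hm_C_mul]
  congr 1
  unfold hm
  rw [sum_eq_single d]
  · rw [coeff_X_pow, if_pos rfl, C_1, one_mul, Nat.sub_self, pow_zero, mul_one]
  · intro i _ hi
    rw [coeff_X_pow, if_neg hi, C_0, zero_mul, zero_mul]
  · intro h
    exact absurd (Finset.mem_range.2 (Nat.lt_succ_self d)) h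

theorem hm_one (d : ℕ) (P Q : M[X]) : hm d 1 P Q = Q ^ d := by
  unfold hm
  rw [sum_eq_single 0]
  · rw [coeff_one_zero, C_1, one_mul, pow_zero, one_mul, Nat.sub_zero]
  · intro i _ hi
    rw [coeff_one, if_neg hi, C_0, zero_mul, zero_mul]
  · intro h
    exact absurd (Finset.mem_range.2 (Nat.succ_pos d)) h

theorem kap_one [CharZero M] {d : ℕ} (hd : 2 ≤ d) :
    kap d (p1 d : M[X]) (q1 d) 0 (-1) 1 = fun _ => 0 := by
  have hμ : ((-1 : M) - 1) / (-1 - 0) = 2 := by norm_num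
  have h2 : (2 : M) ≠ 0 := two_ne_zero
  have hW := hm_hm d (1 : M[X]) (by simp) 2 1 h2 one_ne_zero
  rw [hm_one, C_1] at hW
  have eu : u0 d (p1 d : M[X]) (q1 d) 0 (-1) 1 = C (2 * 2 ^ d) * X ^ d := by
    unfold u0
    rw [hμ, C_0, zero_mul, sub_zero]
    unfold p1
    rw [hm_Xpow, mul_zero, C_0, sub_zero, C_1, one_mul, C_mul]
    ring
  have ew : w0 d (p1 d : M[X]) (q1 d) 0 (-1) 1 = C (2 * (2 * 1) ^ d) := by
    unfold w0
    rw [hμ, C_1, one_mul (hm d (q1 d : M[X]) _ _), ← hm_sub]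
    have : (p1 d - q1 d : M[X]) = C 2 * (X - 1) ^ d := by
      unfold p1 q1
      ring
    rw [this, hm_C_mul, hW, C_mul, mul_one]
  funext i
  rcases i with i | i
  · show (u0 d (p1 d : M[X]) (q1 d) 0 (-1) 1).coeff (i.1 + 1) / _ = 0
    have hi := i.2
    rw [eu, coeff_C_mul, coeff_X_pow, if_neg (by omega), mul_zero, zero_div]
  · show (w0 d (p1 d : M[X]) (q1 d) 0 (-1) 1).coeff (i.1 + 1) / _ = 0
    rw [ew, coeff_C, if_neg (Nat.succ_ne_zero _), zero_div]

theorem fix_zero {d : ℕ} (hd : 2 ≤ d) : (p1 d : M[X]).eval 0 = 0 * (q1 d : M[X]).eval 0 := by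
  have : d ≠ 0 := by omega
  unfold p1
  simp [this]

theorem fix_neg {d : ℕ} : (p1 d : M[X]).eval (-1) = (-1) * (q1 d : M[X]).eval (-1) := by
  have e1 : (p1 d : M[X]).eval (-1) = (-2) ^ d := by
    unfold p1
    rw [eval_mul, eval_C, eval_pow, eval_X, ← mul_pow]
    norm_num
  have e2 : (q1 d : M[X]).eval (-1) = (-2) ^ d - 2 * (-2) ^ d := by
    unfold q1
    rw [eval_sub, eval_mul, eval_C, eval_pow, eval_X, ← mul_pow, eval_mul, eval_C, eval_pow,
      eval_sub, eval_X, eval_one]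
    norm_num
  rw [e1, e2]
  ring

theorem q1_one {d : ℕ} (hd : 2 ≤ d) : (q1 d : M[X]).eval 1 = 2 ^ d := by
  have : d ≠ 0 := by omega
  unfold q1
  simp [this]

theorem fix_one {d : ℕ} (hd : 2 ≤ d) : (p1 d : M[X]).eval 1 = 1 * (q1 d : M[X]).eval 1 := by
  rw [q1_one hd]
  unfold p1
  simp

end

end Pool.Agent.X200.Del
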